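import Pool.Agent.W91.BH.Stm2

set_option autoImplicit false

open MeasureTheory Set
open scoped ENNReal ContDiff

namespace Pool.Agent.W802.BH

open Pool.Agent.W91.BH

lemma floor_coarse (k l : ℕ) (h : k ≤ l) (y : ℝ) :
    ⌊(2 : ℝ) ^ k * y⌋ = ⌊(2 : ℝ) ^ l * y⌋ / ((2 ^ (l - k) : ℕ) : ℤ) := by
  rw [← Int.floor_div_natCast]
  congr 1
  have h2 : (2 : ℝ) ^ l = 2 ^ k * 2 ^ (l - k) := by
    rw [← pow_add]
    congr 1
    omega
  rw [h2]
  push_cast
  field_simp

lemma nested {n : ℕ} {P Q : Idx n} (h : P.1 ≤ Q.1) {x0 : E n} (h1 : x0 ∈ cube n P)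
    (h2 : x0 ∈ cube n Q) : cube n Q ⊆ cube n P := by
  intro x hx i
  have e1 := h1 i
  have e2 := h2 i
  have e3 := hx i
  rw [floor_coarse _ _ h] at e1 ⊢
  rw [e3, ← e2]
  exact e1

lemma cube_meas {n : ℕ} (Q : Idx n) : MeasurableSet (cube n Q) := by
  have h : cube n Q = ⋂ i, (fun x : E n => ⌊(2 : ℝ) ^ Q.1 * x i⌋) ⁻¹' {Q.2 i} := by
    ext x
    simp [cube]
  rw [h]
  refine MeasurableSet.iInter (fun i => ?_)
  have hm : Measurable (fun x : E n => (2 : ℝ) ^ Q.1 * x i) := by fun_prop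
  exact (Int.measurable_floor.comp hm) (measurableSet_singleton _)

lemma cube_vol {n : ℕ} (Q : Idx n) :
    volume (cube n Q) = ENNReal.ofReal ((2 : ℝ) ^ (-((Q.1 : ℝ) * n))) := by
  have hp : (0 : ℝ) < 2 ^ Q.1 := by positivity
  let S : Set (Fin n → ℝ) := Set.pi univ
    (fun i => Ico ((Q.2 i : ℝ) / 2 ^ Q.1) (((Q.2 i : ℝ) + 1) / 2 ^ Q.1))
  have h1 : cube n Q = (MeasurableEquiv.toLp 2 (Fin n → ℝ)).symm ⁻¹' S := by
    ext x
    simp only [cube, mem_setOf_eq, mem_preimage, S, mem_pi, mem_univ, true_imp_iff, mem_Ico]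
    refine forall_congr' (fun i => ?_)
    rw [Int.floor_eq_iff, div_le_iff₀ hp, lt_div_iff₀ hp, mul_comm]
    rfl
  rw [h1, (EuclideanSpace.volume_preserving_symm_measurableEquiv_toLp (Fin n)).measure_preimage_equiv]
  rw [volume_pi_pi]
  simp only [Real.volume_Ico]
  have h2 : ∀ i : Fin n, ENNReal.ofReal (((Q.2 i : ℝ) + 1) / 2 ^ Q.1 - (Q.2 i : ℝ) / 2 ^ Q.1) =
      ENNReal.ofReal ((2 : ℝ) ^ (-(Q.1 : ℝ))) := by
    intro i
    congr 1
    rw [Real.rpow_neg (by norm_num), Real.rpow_natCast]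
    field_simp
    ring
  rw [Finset.prod_congr rfl (fun i _ => h2 i), Finset.prod_const, Finset.card_univ,
    Fintype.card_fin, ← ENNReal.ofReal_pow (by positivity), ← Real.rpow_natCast,
    ← Real.rpow_mul (by norm_num)]
  congr 2
  ring

open Classical in
lemma cover {n : ℕ} (G : Finset (Idx n)) (v : Idx n → ℝ) (A : ℝ) (hA : 0 ≤ A)
    (hv : ∀ Q, 0 ≤ v Q)
    (hP : ∀ P ∈ G, ∑ Q ∈ G.filter (fun Q => cube n Q ⊆ cube n P), v Q
      ≤ A * (2 : ℝ) ^ (-((P.1 : ℝ) * n))) :
    ∀ (m : ℕ) (H : Finset (Idx n)), H.card ≤ m → H ⊆ G →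
      ENNReal.ofReal (∑ Q ∈ H, v Q) ≤ ENNReal.ofReal A * volume (⋃ Q ∈ H, cube n Q) := by
  intro m
  induction m with
  | zero =>
    intro H hH _
    have : H = ∅ := Finset.card_eq_zero.1 (Nat.le_zero.1 hH)
    subst this
    simp
  | succ m ih =>
    intro H hH hHG
    rcases H.eq_empty_or_nonempty with h | hne
    · subst h
      simp
    obtain ⟨Q0, hQ0, hmin⟩ := H.exists_min_image (fun Q => Q.1) hne
    set H0 := H.filter (fun Q => cube n Q ⊆ cube n Q0) with hH0
    set H1 := H.filter (fun Q => ¬ cube n Q ⊆ cube n Q0) with hH1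
    have hsum : ∑ Q ∈ H, v Q = ∑ Q ∈ H0, v Q + ∑ Q ∈ H1, v Q :=
      (Finset.sum_filter_add_sum_filter_not H _ _).symm
    have hc1 : H1.card ≤ m := by
      have : H1 ⊂ H := by
        refine Finset.filter_ssubset.2 ⟨Q0, hQ0, ?_⟩
        simp
      have := Finset.card_lt_card this
      omega
    have i1 := ih H1 hc1 ((Finset.filter_subset _ _).trans hHG)
    have b0 : ∑ Q ∈ H0, v Q ≤ A * (2 : ℝ) ^ (-((Q0.1 : ℝ) * n)) := by
      refine le_trans ?_ (hP Q0 (hHG hQ0))
      refine Finset.sum_le_sum_of_subset_of_nonneg ?_ (fun Q _ _ => hv Q)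
      exact Finset.filter_subset_filter _ hHG
    have i0 : ENNReal.ofReal (∑ Q ∈ H0, v Q) ≤ ENNReal.ofReal A * volume (cube n Q0) := by
      rw [cube_vol, ← ENNReal.ofReal_mul hA]
      exact ENNReal.ofReal_le_ofReal b0
    have hdisj : Disjoint (cube n Q0) (⋃ Q ∈ H1, cube n Q) := by
      rw [Set.disjoint_left]
      intro x hx hx'
      simp only [mem_iUnion] at hx'
      obtain ⟨Q, hQ, hxQ⟩ := hx'
      have hQ' := Finset.mem_filter.1 hQ
      exact hQ'.2 (nested (hmin Q hQ'.1) hx hxQ)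
    rw [hsum, ENNReal.ofReal_add (Finset.sum_nonneg (fun Q _ => hv Q))
      (Finset.sum_nonneg (fun Q _ => hv Q))]
    refine (add_le_add i0 i1).trans ?_
    rw [← mul_add, ← measure_union hdisj (Finset.measurableSet_biUnion _ (fun Q _ => cube_meas Q))]
    refine mul_le_mul_right (measure_mono ?_) _
    apply union_subset
    · exact subset_biUnion_of_mem (u := fun Q => cube n Q) hQ0
    · exact biUnion_subset_biUnion_left (fun Q hQ => (Finset.mem_filter.1 hQ).1)

open Classical in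
lemma main_ind {n : ℕ} (G : Finset (Idx n)) (v : Idx n → ℝ) (A : ℝ) (hA : 0 ≤ A)
    (hv : ∀ Q, 0 ≤ v Q)
    (hP : ∀ P ∈ G, ∑ Q ∈ G.filter (fun Q => cube n Q ⊆ cube n P), v Q
      ≤ A * (2 : ℝ) ^ (-((P.1 : ℝ) * n))) :
    ∀ (m : ℕ) (H : Finset (Idx n)), H.card ≤ m → H ⊆ G → ∀ c : Idx n → ℝ, (∀ Q ∈ H, 0 ≤ c Q) →
      ENNReal.ofReal (∑ Q ∈ H, c Q * v Q) ≤ ENNReal.ofReal A *
        ∫⁻ x, ⨆ Q ∈ H, (cube n Q).indicator (fun _ => ENNReal.ofReal (c Q)) x := by
  intro m
  induction m with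
  | zero =>
    intro H hH _ c _
    have : H = ∅ := Finset.card_eq_zero.1 (Nat.le_zero.1 hH)
    subst this
    simp
  | succ m ih =>
    intro H hH hHG c hc
    rcases H.eq_empty_or_nonempty with h | hne
    · subst h
      simp
    obtain ⟨Q0, hQ0, hmin⟩ := H.exists_min_image c hne
    set t := c Q0 with ht
    have ht0 : 0 ≤ t := hc Q0 hQ0
    set H' := H.erase Q0 with hH'
    have hc' : H'.card ≤ m := by
      have := Finset.card_erase_of_mem hQ0
      rw [← hH'] at this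
      omega
    have i1 := ih H' hc' ((Finset.erase_subset _ _).trans hHG) (fun Q => c Q - t)
      (fun Q hQ => sub_nonneg.2 (hmin Q (Finset.mem_of_mem_erase hQ)))
    have hcov := cover G v A hA hv hP H.card H le_rfl hHG
    have hsum : ∑ Q ∈ H, c Q * v Q = ∑ Q ∈ H', (c Q - t) * v Q + t * ∑ Q ∈ H, v Q := by
      have e1 : ∑ Q ∈ H, c Q * v Q = ∑ Q ∈ H, (c Q - t) * v Q + t * ∑ Q ∈ H, v Q := by
        rw [Finset.mul_sum, ← Finset.sum_add_distrib]
        refine Finset.sum_congr rfl (fun Q _ => by ring)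
      rw [e1, ← Finset.add_sum_erase H _ hQ0]
      simp [ht, hH']
    set U : Set (E n) := ⋃ Q ∈ H, cube n Q with hU
    have hUm : MeasurableSet U := Finset.measurableSet_biUnion _ (fun Q _ => cube_meas Q)
    have hpt : ∀ x, (⨆ Q ∈ H', (cube n Q).indicator (fun _ => ENNReal.ofReal (c Q - t)) x) +
        U.indicator (fun _ => ENNReal.ofReal t) x ≤
        ⨆ Q ∈ H, (cube n Q).indicator (fun _ => ENNReal.ofReal (c Q)) x := by
      intro x
      by_cases hx : x ∈ U
      · rw [indicator_of_mem hx]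
        have hx' := hx
        simp only [hU, mem_iUnion] at hx'
        obtain ⟨Q1, hQ1, hxQ1⟩ := hx'
        have hT : ENNReal.ofReal t ≤
            ⨆ Q ∈ H, (cube n Q).indicator (fun _ => ENNReal.ofReal (c Q)) x := by
          refine le_trans ?_ (le_iSup₂ (f := fun Q (_ : Q ∈ H) =>
            (cube n Q).indicator (fun _ => ENNReal.ofReal (c Q)) x) Q1 hQ1)
          rw [indicator_of_mem hxQ1]
          exact ENNReal.ofReal_le_ofReal (hmin Q1 hQ1)
        have hS : (⨆ Q ∈ H', (cube n Q).indicator (fun _ => ENNReal.ofReal (c Q - t)) x) ≤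
            (⨆ Q ∈ H, (cube n Q).indicator (fun _ => ENNReal.ofReal (c Q)) x) -
              ENNReal.ofReal t := by
          refine iSup₂_le (fun Q hQ => ?_)
          have hQH := Finset.mem_of_mem_erase hQ
          by_cases hxQ : x ∈ cube n Q
          · refine ENNReal.le_sub_of_add_le_right ENNReal.ofReal_ne_top ?_
            rw [indicator_of_mem hxQ, ← ENNReal.ofReal_add (sub_nonneg.2 (hmin Q hQH)) ht0,
              sub_add_cancel]
            refine le_trans ?_ (le_iSup₂ (f := fun Q (_ : Q ∈ H) =>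
              (cube n Q).indicator (fun _ => ENNReal.ofReal (c Q)) x) Q hQH)
            rw [indicator_of_mem hxQ]
          · rw [indicator_of_notMem hxQ]
            exact zero_le
        calc _ ≤ ((⨆ Q ∈ H, (cube n Q).indicator (fun _ => ENNReal.ofReal (c Q)) x) -
              ENNReal.ofReal t) + ENNReal.ofReal t := add_le_add hS le_rfl
          _ = _ := tsub_add_cancel_of_le hT
      · rw [indicator_of_notMem hx, add_zero]
        refine iSup₂_le (fun Q hQ => ?_)
        have hxQ : x ∉ cube n Q := fun h => hx (by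
          simp only [hU, mem_iUnion]
          exact ⟨Q, Finset.mem_of_mem_erase hQ, h⟩)
        rw [indicator_of_notMem hxQ]
        exact zero_le
    have hint : (∫⁻ x, ⨆ Q ∈ H', (cube n Q).indicator (fun _ => ENNReal.ofReal (c Q - t)) x) +
        ENNReal.ofReal t * volume U ≤
        ∫⁻ x, ⨆ Q ∈ H, (cube n Q).indicator (fun _ => ENNReal.ofReal (c Q)) x := by
      rw [← lintegral_indicator_const hUm, ← lintegral_add_right _
        (measurable_const.indicator hUm)]
      exact lintegral_mono hpt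
    rw [hsum, ENNReal.ofReal_add (Finset.sum_nonneg (fun Q hQ => mul_nonneg
      (sub_nonneg.2 (hmin Q (Finset.mem_of_mem_erase hQ))) (hv Q)))
      (mul_nonneg ht0 (Finset.sum_nonneg (fun Q _ => hv Q))), ENNReal.ofReal_mul ht0]
    calc _ ≤ ENNReal.ofReal A * (∫⁻ x, ⨆ Q ∈ H', (cube n Q).indicator
          (fun _ => ENNReal.ofReal (c Q - t)) x) +
          ENNReal.ofReal t * (ENNReal.ofReal A * volume U) :=
          add_le_add i1 (mul_le_mul_right hcov _)
      _ = ENNReal.ofReal A * ((∫⁻ x, ⨆ Q ∈ H', (cube n Q).indicator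
          (fun _ => ENNReal.ofReal (c Q - t)) x) + ENNReal.ofReal t * volume U) := by ring
      _ ≤ _ := mul_le_mul_right hint _

theorem carl : S_CARL := by
  intro n G c v A hA hc hv hP
  exact main_ind G v A hA hv hP G.card G le_rfl le_rfl c (fun Q _ => hc Q)

end Pool.Agent.W802.BH
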